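import Pool.Agent.Helper67_TP.Ident

/-!
# MP_ce3ba7_al, module C3-BASE (helper50): calculus in alternative algebras of characteristic 3

`kb` commutator, `jo` Jordan product, `asc` associator, `kf` Kleinfeld function.
-/

set_option autoImplicit false
set_option linter.unusedSectionVars false
set_option linter.unusedVariables false

namespace Pool.Agent.TP

namespace B3

open H67

variable {B : Type} [NonUnitalNonAssocRing B]

/-- Jordan product `xy + yx` -/
def jo (x y : B) : B := x * y + y * x

theorem jo_comm (x y : B) : jo x y = jo y x := by unfold jo; abel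
theorem jo_add1 (x x' y : B) : jo (x + x') y = jo x y + jo x' y := by
  unfold jo; simp only [add_mul, mul_add]; abel
theorem jo_add2 (x y y' : B) : jo x (y + y') = jo x y + jo x y' := by
  unfold jo; simp only [add_mul, mul_add]; abel
theorem jo_sub1 (x x' y : B) : jo (x - x') y = jo x y - jo x' y := by
  unfold jo; simp only [sub_mul, mul_sub]; abel
theorem jo_sub2 (x y y' : B) : jo x (y - y') = jo x y - jo x y' := by
  unfold jo; simp only [sub_mul, mul_sub]; abel
theorem jo_neg1 (x y : B) : jo (-x) y = - jo x y := by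
  unfold jo; simp only [neg_mul, mul_neg]; abel
theorem jo_neg2 (x y : B) : jo x (-y) = - jo x y := by
  unfold jo; simp only [neg_mul, mul_neg]; abel
theorem jo_zero1 (y : B) : jo 0 y = 0 := by unfold jo; simp
theorem jo_zero2 (y : B) : jo y 0 = 0 := by unfold jo; simp
theorem kb_zero1 (y : B) : kb 0 y = 0 := by unfold kb; simp
theorem asc_zero1 (y z : B) : asc 0 y z = 0 := by unfold asc; simp
theorem asc_zero2 (y z : B) : asc y 0 z = 0 := by unfold asc; simp
theorem asc_zero3 (y z : B) : asc y z 0 = 0 := by unfold asc; simp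
theorem kb_self (x : B) : kb x x = 0 := by unfold kb; abel

section three
variable (hB : IsAlt B) (h3 : ∀ x : B, x + x + x = 0)
include h3

omit hB in
theorem three2 : ∀ x : B, 2 • x = 0 → x = 0 := by
  intro x hx
  have h := h3 x
  rw [two_nsmul] at hx
  rwa [hx, zero_add] at h

omit hB in
theorem z3 (x : B) : (3 : ℤ) • x = 0 := by
  rw [show (3 : ℤ) = 2 + 1 by norm_num, add_smul, two_zsmul, one_zsmul, h3]

omit hB in
theorem z2 (x : B) : (2 : ℤ) • x = -x := by
  rw [eq_neg_iff_add_eq_zero, two_zsmul, h3]

omit hB in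
theorem n2 (x : B) : x + x = -x := by rw [eq_neg_iff_add_eq_zero, h3]

end three

variable (hB : IsAlt B) (h3 : ∀ x : B, x + x + x = 0)
include hB h3

/-- `ad` is a derivation of the product -/
theorem ad_mul (x a b : B) : kb x (a * b) = kb x a * b + a * kb x b := by
  have key : kb x (a * b) - (kb x a * b + a * kb x b) = - (asc x a b + asc x a b + asc x a b) := by
    have e1 : asc a x b = - asc x a b := s12 hB x a b
    have e2 : asc a b x = asc x a b := cyc hB x a b
    have : kb x (a * b) - (kb x a * b + a * kb x b) = - asc x a b + asc a x b - asc a b x := by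
      simp only [kb, asc, sub_mul, mul_sub]; abel
    rw [this, e1, e2]; abel
  rw [h3, neg_zero, sub_eq_zero] at key
  exact key

theorem ad_jo (x a b : B) : kb x (jo a b) = jo (kb x a) b + jo a (kb x b) := by
  unfold jo
  rw [kb_add2, ad_mul hB h3, ad_mul hB h3]
  abel

theorem ad_kb (x a b : B) : kb x (kb a b) = kb (kb x a) b + kb a (kb x b) := by
  have : kb a b = a * b - b * a := rfl
  rw [this, kb_sub2, ad_mul hB h3, ad_mul hB h3]
  unfold kb
  abel

theorem ad_asc (x a b c : B) : kb x (asc a b c) =
    asc (kb x a) b c + asc a (kb x b) c + asc a b (kb x c) := by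
  have : asc a b c = a * b * c - a * (b * c) := rfl
  rw [this, kb_sub2, ad_mul hB h3, ad_mul hB h3, ad_mul hB h3, ad_mul hB h3]
  simp only [asc, add_mul, mul_add]
  abel

/-- Jacobi identity -/
theorem jacobi (a b c : B) : kb (kb a b) c + kb (kb b c) a + kb (kb c a) b = 0 := by
  have h := ad_kb hB h3 a b c
  have e1 : kb a (kb b c) = - kb (kb b c) a := kb_skew _ _
  have e2 : kb b (kb a c) = kb (kb c a) b := by
    rw [kb_skew b, kb_skew a c, kb_neg1, neg_neg]
  rw [e1, e2] at h
  rw [← sub_eq_zero] at h
  have : kb (kb a b) c + kb (kb b c) a + kb (kb c a) b =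
      -(-kb (kb b c) a - (kb (kb a b) c + kb (kb c a) b)) := by abel
  rw [this, h, neg_zero]

omit h3 in
/-- `T` is a derivation of `jo` in the first argument -/
theorem T_jo1 (a b y z : B) : asc (jo a b) y z = jo a (asc b y z) + jo b (asc a y z) := by
  have h := jder hB a b y z
  unfold jo
  rw [h]
  abel

omit h3 in
theorem T_jo3 (a b y z : B) : asc y z (jo a b) = jo a (asc y z b) + jo b (asc y z a) := by
  rw [← cyc' hB y z (jo a b), T_jo1 hB, cyc' hB y z b, cyc' hB y z a]

omit h3 in
theorem T_jo2 (a b y z : B) : asc y (jo a b) z = jo a (asc y b z) + jo b (asc y a z) := by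
  rw [s12 hB (jo a b) y z, T_jo1 hB, s12 hB b y z, s12 hB a y z]
  rw [jo_neg2, jo_neg2]
  abel

/-- `(a o b) o c - a o (b o c) = [b,[a,c]] + T(a,b,c)` -/
theorem A3 (a b c : B) : jo (jo a b) c - jo a (jo b c) = kb b (kb a c) + asc a b c := by
  have key : jo (jo a b) c - jo a (jo b c) - (kb b (kb a c) + asc a b c) =
      asc b a c - asc c a b - asc c b a + asc a c b - asc b c a := by
    simp only [jo, kb, asc, add_mul, mul_add, sub_mul, mul_sub]; abel
  have e1 : asc b a c = - asc a b c := s12 hB a b c
  have e2 : asc a c b = - asc a b c := s23 hB a b c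
  have e3 : asc c b a = - asc a b c := s13 hB a b c
  have e4 : asc c a b = asc a b c := cyc' hB a b c
  have e5 : asc b c a = asc a b c := cyc hB a b c
  rw [e1, e2, e3, e4, e5] at key
  rw [← sub_eq_zero, key]
  have h := h3 (asc a b c)
  have : -asc a b c - asc a b c - -asc a b c + -asc a b c - asc a b c =
      -(asc a b c + asc a b c + asc a b c) := by abel
  rw [this, h, neg_zero]

/-- alternating sum of commutators vanishes -/
theorem F3z (w x y z : B) :
    kb w (asc x y z) - kb x (asc y z w) + kb y (asc z w x) - kb z (asc w x y) = 0 := by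
  rw [← F3 hB w x y z, h3]

theorem F2' (w x y z : B) : kf w x y z = kb x (asc w y z) - kb w (asc x y z) -
    asc (kb w x) y z := by
  have h := F2 hB w x y z
  rw [n2 h3] at h
  rw [← neg_neg (kf w x y z), h]
  abel

/-- `K`: `T(p,q,[w,x]) = [T(p,q,w),x] + [w,T(p,q,x)] + T([p,q],w,x)` -/
theorem K3 (p q w x : B) : asc p q (kb w x) =
    kb (asc p q w) x + kb w (asc p q x) + asc (kb p q) w x := by
  have h1 := F2' hB h3 w x p q
  have h2 := F1 hB w x p q
  have e1 : asc w p q = asc p q w := (cyc hB w p q).symm
  have e2 : asc x p q = asc p q x := (cyc hB x p q).symm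
  have e3 : asc p q (kb w x) = asc (kb w x) p q := cyc hB (kb w x) p q
  rw [e1, e2] at h1
  rw [h1] at h2
  rw [e3, kb_skew (asc p q w) x]
  have h4 : asc (kb w x) p q + asc (kb w x) p q = kb x (asc p q w) - kb w (asc p q x) -
      asc (kb p q) w x := by
    have : asc (kb w x) p q + asc (kb w x) p q = (asc (kb w x) p q + asc (kb p q) w x) +
        asc (kb w x) p q - asc (kb p q) w x := by abel
    rw [this, ← h2]; abel
  rw [n2 h3] at h4
  rw [← neg_neg (asc (kb w x) p q), h4]
  abel

/-- `K` with the operator in the first two places of `asc`, other arrangement -/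
theorem K3' (p q w x : B) : asc (kb w x) p q =
    kb (asc p q w) x + kb w (asc p q x) + asc (kb p q) w x := by
  rw [← K3 hB h3]
  exact (cyc hB (kb w x) p q).symm

/-- `R8`: the operator `t = T(p,q,.)` on the associator -/
theorem R8 (p q a b c : B) : asc p q (asc a b c) =
    asc (asc p q a) b c + asc a (asc p q b) c + asc a b (asc p q c)
      - kb b (asc (kb p q) a c) - asc (kb p q) b (kb a c) := by
  have hA : ∀ a b c : B, asc a b c = jo (jo a b) c - jo a (jo b c) - kb b (kb a c) := by
    intro a b c
    rw [A3 hB h3]; abel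
  rw [hA a b c, asc_sub3, asc_sub3, T_jo3 hB, T_jo3 hB, T_jo3 hB, T_jo3 hB, K3 hB h3, K3 hB h3,
    hA (asc p q a) b c, hA a (asc p q b) c, hA a b (asc p q c)]
  simp only [jo_add2, kb_add2]
  rw [jo_comm b (asc p q a), jo_comm c (jo (asc p q a) b), jo_comm c (jo a (asc p q b))]
  rw [jo_comm (jo b c) (asc p q a), jo_comm c (asc p q b)]
  abel

/-- `[x,y] o T(x,y,z) = 0` -/
theorem PJ (x y z : B) : jo (kb x y) (asc x y z) = 0 := PP hB (three2 h3) x y z

/-- `T([x,y],x,z) = [x,T(x,y,z)]` -/
theorem R1a (x y z : B) : asc (kb x y) x z = kb x (asc x y z) := R1 hB (three2 h3) x y z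

theorem R1b (x y z : B) : asc x (kb x y) z = - kb x (asc x y z) := R1' hB (three2 h3) x y z

theorem R1c (x y z : B) : asc x y (kb x z) = - kb x (asc x y z) := R1'' hB (three2 h3) x y z

/-- `T(x,[x,a],b) = T(x,a,[x,b])` -/
theorem R1d (x a b : B) : asc x (kb x a) b = asc x a (kb x b) := by
  rw [R1b hB h3, R1c hB h3]

/-- the Kleinfeld function vanishes on equal arguments -/
theorem kf_self12 (x y z : B) : kf x x y z = 0 := kf0'' hB (three2 h3) x y z
theorem kf_self13 (x y z : B) : kf x y x z = 0 := kf0 hB (three2 h3) x y z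
theorem kf_self23 (x y z : B) : kf x y y z = 0 := kf0' hB (three2 h3) x y z

end B3

end Pool.Agent.TP
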