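import Pool.Agent.Helper57_C3.Stmts
import Pool.Agent.Helper19_TP.Top
import Pool.Agent.Helper51_TP.Rules
import Pool.Agent.Helper50_TP3.Base3

/-!
# MP_ce3ba7_al, module C3-FIN (helper50): characteristic 3 from the modules of helper57
-/

set_option autoImplicit false
set_option linter.unusedSectionVars false
set_option linter.unusedVariables false

namespace Pool.Agent.C3

open Pool.Agent.TP

open B3

theorem three_of {F : Type} [Field F] (h3 : (3 : F) = 0) {B : Type} [NonUnitalNonAssocRing B]
    [Module F B] (x : B) : x + x + x = 0 := by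
  have h : (3 : F) • x = x + x + x := by
    rw [show (3 : F) = 1 + 1 + 1 by norm_num, add_smul, add_smul, one_smul]
  rw [← h, h3, zero_smul]

/-- cubes are nuclear when `[x,[x,y]] = 0` -/
theorem cube_nuc {B : Type} [NonUnitalNonAssocRing B] (hB : IsAlt B)
    (h3 : ∀ x : B, x + x + x = 0) (hx : ∀ a b : B, cm a (cm a b) = 0) (x y z : B) :
    asc ((x * x) * x) y z = 0 := by
  have e1 : (x * x) * x = jo x (jo x x) := by
    have h := h3 (x * x * x)
    have h' : jo x (jo x x) = (x * (x * x) + x * (x * x)) + (x * x * x + x * x * x) := by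
      unfold jo; simp only [mul_add, add_mul]
    rw [h', ← hB.1 x x]
    have : x * x * x + x * x * x + (x * x * x + x * x * x) =
        (x * x * x + x * x * x + x * x * x) + x * x * x := by abel
    rw [this, h, zero_add]
  have e2 : jo (jo x x) (asc x y z) = jo x (jo x (asc x y z)) := by
    have h := A3 hB h3 x x (asc x y z)
    have h1 : H67.kb x (H67.kb x (asc x y z)) = 0 := hx x (asc x y z)
    rw [h1, H67.a_xxz hB, add_zero, sub_eq_zero] at h
    exact h
  rw [e1, T_jo1 hB, T_jo1 hB, e2, jo_add2, h3]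

/-- C3-FIN -/
theorem fin3 (hClos : ClosStmt) (hNcln : NclnStmt) (hFF : FFStmt) (hRC : RCStmt)
    (hCom : Comm3Stmt) : Char3Stmt := by
  intro F _ h3 S hS
  by_contra hns
  obtain ⟨B, _, _, _, _, x, hM⟩ := primeQ F S hns
  have hB3 : ∀ a : B, a + a + a = 0 := fun a => three_of h3 a
  have hX := hClos F h3 S hS B x hM
  have hR : Rules B := rules F S hS B x hM.rel hM.alt hM.sat hM.prime hM.nsol
  have hcube : ∀ a : B, (a * a) * a = 0 := fun a =>
    hR.nuc _ fun y z => cube_nuc hM.alt hB3 hX a y z
  have hLN : LNh F B := hNcln F h3 B hM.alt hX hcube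
  have hML : HasML F B := hFF F S hS B x hM hLN
  have hcom : ∀ a b : B, a * b = b * a := hRC F h3 S hS B x hM hML hX
  obtain ⟨n, hn⟩ := hCom F h3 S hS
  refine hM.nsol n (hn B hM.alt.1 hM.alt.2 ?_)
  intro f hf φ
  rcases hf with rfl | hf
  · have h1 : MonoidAlgebra.liftMagma F (FreeMagma.lift φ)
        (H67.mo F (FreeMagma.of 0 * FreeMagma.of 1)) = φ 0 * φ 1 := by
      rw [H67.mo]
      simp
    have h2 : MonoidAlgebra.liftMagma F (FreeMagma.lift φ)
        (H67.mo F (FreeMagma.of 1 * FreeMagma.of 0)) = φ 1 * φ 0 := by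
      rw [H67.mo]
      simp
    unfold comId
    rw [map_sub, h1, h2, hcom, sub_self]
  · exact hM.sat f hf φ

end Pool.Agent.C3
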