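import Pool.Agent.Helper50_TP3.Base3

/-!
# MP_ce3ba7_al, module C3-ID4 (helper50): identity (4) of helper66's chain in characteristic 3

If all `[x,y] o [x,z] = 0` then `T([x,[x,y]],a,b) = [[x,[x,y]],[a,b]]`.
-/

set_option autoImplicit false
set_option linter.unusedSectionVars false
set_option linter.unusedVariables false
set_option linter.unusedSimpArgs false

namespace Pool.Agent.TP

namespace B3

open H67

variable {B : Type} [NonUnitalNonAssocRing B]

theorem ck {s : B} (h : s = 0) (u : B) : kb s u = 0 := by rw [h, kb_zero1]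
theorem ct {s : B} (h : s = 0) (u v : B) : asc s u v = 0 := by rw [h, asc_zero1]

variable (hB : IsAlt B) (h3 : ∀ x : B, x + x + x = 0)
include hB h3

theorem jac0 (u v w : B) : kb (kb u v) w + kb (kb v w) u + kb (kb w u) v = 0 :=
  jacobi hB h3 u v w

theorem ad0 (w u v z : B) : kb w (asc u v z) - asc (kb w u) v z - asc u (kb w v) z -
    asc u v (kb w z) = 0 := by
  rw [ad_asc hB h3]; abel

theorem k0 (p q w x : B) : asc p q (kb w x) - kb (asc p q w) x - kb w (asc p q x) -
    asc (kb p q) w x = 0 := by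
  rw [K3 hB h3]; abel

theorem r0 (x w y z : B) : asc (kb x y) w z + asc (kb w y) x z - kb x (asc w y z) -
    kb w (asc x y z) = 0 := by
  have h := R1a hB h3 (x + w) y z
  simp only [kb_add1, asc_add1, asc_add2, kb_add2, R1a hB h3 x, R1a hB h3 w] at h
  linear_combination (norm := abel) h

/-- the derivation `[J_u, J_e]` -/
def DD (u e w : B) : B := kb (kb u e) w + asc u e w

omit hB h3 in
theorem DD_def (u e w : B) : DD u e w = kb (kb u e) w + asc u e w := rfl

theorem DD_jo (u e w : B) : DD u e w = jo u (jo e w) - jo e (jo u w) := by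
  have h1 := A3 hB h3 u e w
  have h2 := A3 hB h3 e u w
  rw [jo_comm e u] at h2
  have h3' := jacobi hB h3 u e w
  have h4 := h3 (asc u e w)
  have e1 : asc e u w = - asc u e w := s12 hB u e w
  rw [e1] at h2
  have e2 : kb (kb e w) u = - kb u (kb e w) := kb_skew _ _
  have e3 : kb (kb w u) e = kb e (kb u w) := by
    rw [kb_skew w u, kb_neg1, kb_skew (kb u w) e, neg_neg]
  rw [e2, e3] at h3'
  unfold DD
  linear_combination (norm := abel) h1 - h2 + h3' + h4

def rho (p q r e f : B) : B :=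
  DD (kb p q) e (kb r f) + DD (kb p q) f (kb r e) + DD (kb p r) e (kb q f) +
    DD (kb p r) f (kb q e)


omit hB h3 in
theorem jo_kb (e r f : B) (h3 : ∀ x : B, x + x + x = 0) (hB : IsAlt B) :
    jo e (kb r f) + jo f (kb r e) = kb r (jo e f) := by
  rw [ad_jo hB h3, jo_comm f (kb r e)]; abel

/-- under `[p,q] o [r,f] + [p,r] o [q,f] = 0` all `rho` vanish -/
theorem rho_zero (hs : ∀ p q r f : B, jo (kb p q) (kb r f) + jo (kb p r) (kb q f) = 0)
    (p q r e f : B) : rho p q r e f = 0 := by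
  unfold rho
  rw [DD_jo hB h3, DD_jo hB h3, DD_jo hB h3, DD_jo hB h3]
  have a1 : jo (kb p q) (jo e (kb r f)) + jo (kb p q) (jo f (kb r e)) =
      jo (kb p q) (kb r (jo e f)) := by rw [← jo_add2, jo_kb e r f h3 hB]
  have a2 : jo (kb p r) (jo e (kb q f)) + jo (kb p r) (jo f (kb q e)) =
      jo (kb p r) (kb q (jo e f)) := by rw [← jo_add2, jo_kb e q f h3 hB]
  have b1 := hs p q r (jo e f)
  have b2 : jo e (jo (kb p q) (kb r f)) + jo e (jo (kb p r) (kb q f)) = 0 := by
    rw [← jo_add2, hs, jo_zero2]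
  have b3 : jo f (jo (kb p q) (kb r e)) + jo f (jo (kb p r) (kb q e)) = 0 := by
    rw [← jo_add2, hs, jo_zero2]
  linear_combination (norm := abel) a1 + a2 + b1 - b2 - b3

set_option maxHeartbeats 4000000 in
/-- an identity of the free alternative algebra of characteristic 3 -/
theorem DD_rho (x y a b : B) : DD a b (kb x (kb x y)) =
    rho y a b x x - rho b a x x y + rho a x x b y + rho y a x b x + rho x b y a x := by
  have e1 := ck (jac0 hB h3 b x y) (kb a x)
  have e2 := ck (jac0 hB h3 a x y) (kb b x)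
  have e3 := ck (jac0 hB h3 a b x) (kb x y)
  have e4 := r0 hB h3 a y x (kb b x)
  have e5 := k0 hB h3 x (kb x y) a b
  have e6 := ck (r0 hB h3 b y x x) a
  have e7 := ad0 hB h3 b a x (kb x y)
  have e8 := ct (jac0 hB h3 b x y) a x
  have e9 := r0 hB h3 a (kb b y) x x
  have e10 := ad0 hB h3 y a x (kb b x)
  simp only [DD, rho]
  simp only [kb_add1, kb_add2, kb_sub1, kb_sub2, kb_neg1, kb_neg2, asc_add1, asc_add2, asc_add3, asc_sub1,
    asc_sub2, asc_sub3, asc_neg1, asc_neg2, asc_neg3, neg_neg, kb_zero1, kb_zero2, asc_zero1,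
    asc_zero2, asc_zero3, neg_zero, add_zero, zero_add, sub_zero, zero_sub,
    a_zxx hB x (kb b y),
    a_zxx hB x a,
    a_zxx hB x b,
    a_zxx hB x y,
    cyc hB a x (kb x y),
    cyc hB b x (kb x y),
    cyc hB x (kb a x) (kb b y),
    cyc' hB a (kb b x) (kb x y),
    cyc' hB a b (kb x (kb x y)),
    cyc' hB a x (kb b (kb x y)),
    cyc' hB a x (kb x (kb b y)),
    cyc' hB a x (kb y (kb b x)),
    cyc' hB b (kb a x) (kb x y),
    cyc' hB b x (kb x y),
    cyc' hB x (kb a b) (kb x y),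
    cyc' hB x (kb a x) (kb b y),
    cyc' hB x (kb a y) (kb b x),
    cyc' hB y (kb a x) (kb b x),
    kb_self x,
    kb_skew (asc a x (kb x y)) b,
    kb_skew (asc b x (kb x y)) a,
    kb_skew (asc x y (kb b x)) a,
    kb_skew (kb a (kb b x)) (kb x y),
    kb_skew (kb a (kb x y)) (kb b x),
    kb_skew (kb a b) x,
    kb_skew (kb a b) y,
    kb_skew (kb a x) b,
    kb_skew (kb a x) y,
    kb_skew (kb a y) b,
    kb_skew (kb a y) x,
    kb_skew (kb b (kb a x)) (kb x y),
    kb_skew (kb b (kb x y)) (kb a x),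
    kb_skew (kb b x) a,
    kb_skew (kb b x) x,
    kb_skew (kb b x) y,
    kb_skew (kb b y) x,
    kb_skew (kb x (kb a b)) (kb x y),
    kb_skew (kb x (kb a y)) (kb b x),
    kb_skew (kb x (kb b x)) (kb a y),
    kb_skew (kb x (kb b y)) (kb a x),
    kb_skew (kb x (kb x y)) (kb a b),
    kb_skew (kb x y) a,
    kb_skew (kb x y) b,
    kb_skew (kb x y) x,
    kb_skew (kb y (kb a x)) (kb b x),
    kb_skew (kb y (kb b x)) (kb a x),
    kb_skew b a,
    kb_skew x a,
    kb_skew x b,
    kb_skew y a,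
    kb_skew y b,
    kb_skew y x,
    s12 hB a (kb b x) (kb x y),
    s12 hB b (kb a x) (kb x y),
    s12 hB x (kb a b) (kb x y),
    s12 hB x (kb a y) (kb b x),
    s12 hB x y (kb b x),
    s12 hB y (kb a x) (kb b x),
    s13 hB x y (kb b x),
    s23 hB a (kb b x) (kb x y),
    s23 hB x (kb a b) (kb x y)] at e1 e2 e3 e4 e5 e6 e7 e8 e9 e10 ⊢
  linear_combination (norm := abel) e1 - e2 - e3 + e4 - e5 - e6 + e7 - e8 - e9 + e10 + h3 (kb (kb a b) (kb x (kb x y))) + h3 (kb (kb a x) (kb x (kb b y))) + h3 (kb (kb b x) (kb y (kb a x))) - h3 (kb (kb x y) (kb b (kb a x))) + h3 (asc a (kb b x) (kb x y)) + h3 (asc b (kb a x) (kb x y)) + h3 (asc x (kb a b) (kb x y)) + h3 (asc x (kb a x) (kb b y))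

/-- polarised hypothesis -/
theorem hs_pol (hs : ∀ x y z : B, jo (kb x y) (kb x z) = 0) (p q r f : B) :
    jo (kb p q) (kb r f) + jo (kb p r) (kb q f) = 0 := by
  have h1 := hs (q + r) p f
  simp only [kb_add1, jo_add1, jo_add2, hs, zero_add, add_zero] at h1
  rw [kb_skew p q, kb_skew p r, jo_neg1, jo_neg1]
  have h2 : jo (kb r p) (kb q f) + jo (kb q p) (kb r f) = 0 := by
    linear_combination (norm := abel) h1
  have : -jo (kb q p) (kb r f) + -jo (kb r p) (kb q f) =
      -(jo (kb r p) (kb q f) + jo (kb q p) (kb r f)) := by abel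
  rw [this, h2, neg_zero]

/-- identity (4) -/
theorem id4 (hs : ∀ x y z : B, jo (kb x y) (kb x z) = 0) (x y a b : B) :
    asc (kb x (kb x y)) a b = kb (kb x (kb x y)) (kb a b) := by
  have hp := hs_pol hB h3 hs
  have h := DD_rho hB h3 x y a b
  simp only [rho_zero hB h3 hp, sub_zero, add_zero] at h
  rw [DD_def] at h
  rw [kb_skew (kb x (kb x y)) (kb a b), ← cyc hB (kb x (kb x y)) a b, eq_neg_iff_add_eq_zero,
    add_comm]
  exact h

end B3

end Pool.Agent.TP
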